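import Pool.Agent.R287.UPd

open Pool.Agent.R287.UP
open scoped Cardinal

universe u v w

namespace Pool.Agent.Results.MP_17402e_an.LInftyUltraproducts

/-- Over a countably incomplete `κ`-good ultrafilter every ultraproduct which is an
`ℒ_∞`-space is `κ`-injective, and even universally `(lam, κ)`-injective for some `lam`. -/
theorem result {𝕜 : Type} [RCLike 𝕜] {κ : Cardinal.{u}} (hκ : ℵ₀ ≤ κ) {I : Type v}
    (U : Ultrafilter I) (hI : CountablyIncomplete U) (hg : IsGood U κ) (X : I → Type w)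
    [∀ i, NormedAddCommGroup (X i)] [∀ i, NormedSpace 𝕜 (X i)]
    (hE : ∃ lam, IsLInfty 𝕜 (UltraProd 𝕜 U X) lam) :
    AlephInjective 𝕜 κ (UltraProd 𝕜 U X) ∧ ∃ lam, UnivInjective 𝕜 κ lam (UltraProd 𝕜 U X) := by
  obtain ⟨lam, h⟩ := univInjective_of_LInfty hI hg hE
  exact ⟨alephInjective_of_univ hκ h, lam, h⟩

end Pool.Agent.Results.MP_17402e_an.LInftyUltraproducts
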